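import Pool.Agent.T6.H18.HH.Vino

/-!
# Almost all integers are midpoints of two primes, with the expected number in all short windows
-/

set_option autoImplicit false

namespace Pool.Agent.V7H86.GM

open Finset hiding val
open Pool.Agent.W93.GB
open Pool.Agent.W93.PG
open Pool.Agent.H560R3.GB (sing)
open Pool.Agent.W93.RD (Str pw val)

/-- the exceptional set for the Goldbach problem in windows -/
noncomputable def exc (ε : ℝ) (A k : ℕ) : Finset ℕ := by
  classical
  exact (range (2 ^ k)).filter fun m => 0 < m ∧ 2 ∣ m ∧ ¬ WinP ε A m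

theorem mem_exc {ε : ℝ} {A k m : ℕ} : m ∈ exc ε A k ↔ m < 2 ^ k ∧ 0 < m ∧ 2 ∣ m ∧ ¬ WinP ε A m := by
  classical
  rw [exc, mem_filter, mem_range]

theorem card_exc (ε : ℝ) (hε : 0 < ε) (A U : ℕ) :
    ∃ k₀ : ℕ, ∀ k, k₀ ≤ k → ((exc ε A k).card : ℝ) ≤ 2 ^ k / (k : ℝ) ^ U := by
  classical
  obtain ⟨k₀, h⟩ := pg_windows 2 2 0 A U 0 le_rfl (1 / 2) ε (by norm_num) hε
    (WinP ε A) (fun m _ _ h => h)
  refine ⟨k₀, fun k hk => ?_⟩
  have h1 := h k hk (fun _ _ => 1 / 2) (fun _ _ _ => by norm_num) (fun _ _ _ => by norm_num)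
    (fun _ _ => by norm_num) 0 (by simp)
    (fun d => 0 < (0 : ℤ) + (val 2 d : ℤ) ∧ 2 ∣ (0 : ℤ) + (val 2 d : ℤ) ∧
      ¬ WinP ε A ((0 : ℤ) + (val 2 d : ℤ)).toNat) (Classical.decPred _) (fun d _ h => h)
  have h2 : ∀ d : Fin k → ℕ, pw (fun _ _ => (1 / 2 : ℝ)) d = (1 / 2) ^ k := by
    intro d
    rw [pw, prod_const, card_univ, Fintype.card_fin]
  simp only [h2] at h1
  rw [← sum_filter, sum_const, nsmul_eq_mul] at h1
  have h3 : exc ε A k ⊆ ((Str 2 k).filter fun d => 0 < (0 : ℤ) + (val 2 d : ℤ) ∧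
      2 ∣ (0 : ℤ) + (val 2 d : ℤ) ∧ ¬ WinP ε A ((0 : ℤ) + (val 2 d : ℤ)).toNat).image
      (fun d => val 2 d) := by
    intro m hm
    obtain ⟨a, b, c, e⟩ := mem_exc.1 hm
    obtain ⟨d, hd, hv⟩ := Pool.Agent.T6.H18.HH.exists_digits k m a
    rw [mem_image]
    refine ⟨d, ?_, hv⟩
    rw [mem_filter]
    refine ⟨hd, ?_, ?_, ?_⟩
    · rw [hv, zero_add]
      exact_mod_cast b
    · rw [hv, zero_add]
      exact_mod_cast c
    · rw [hv, zero_add, Int.toNat_natCast]
      exact e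
  have h4 := (card_le_card h3).trans card_image_le
  have h5 : ((exc ε A k).card : ℝ) * (1 / 2) ^ k ≤ 1 / (k : ℝ) ^ U := by
    refine le_trans (mul_le_mul_of_nonneg_right ?_ (by positivity)) h1
    refine le_trans (Nat.cast_le.2 h4) (le_of_eq ?_)
    congr
  have h6 : ((exc ε A k).card : ℝ) = ((exc ε A k).card : ℝ) * (1 / 2) ^ k * 2 ^ k := by
    rw [mul_assoc, ← mul_pow]
    norm_num
  rw [h6]
  calc ((exc ε A k).card : ℝ) * (1 / 2) ^ k * 2 ^ k ≤ 1 / (k : ℝ) ^ U * 2 ^ k :=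
        mul_le_mul_of_nonneg_right h5 (by positivity)
    _ = 2 ^ k / (k : ℝ) ^ U := by ring

/-- the number of the `h`, `1 ≤ h ≤ H`, for which `M - h` and `M + h` are both primes -/
def pairs (M H : ℕ) : ℕ := #((Icc 1 H).filter fun h => (M - h).Prime ∧ (M + h).Prime)

/-- the expected number `2 C₂ ∏_{p ∣ M, p > 2} (p - 1) / (p - 2) H / (log 2 M) ^ 2` -/
noncomputable def expected (M H : ℕ) : ℝ := sing (2 * M) * H / Real.log ((2 * M : ℕ) : ℝ) ^ 2

/-- the numbers of the pairs are the expected ones, up to a factor between `1 - ε` and `1 + ε`, for all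
`H` between `M / (log M) ^ A` and `M - 1` -/
def Law (ε : ℝ) (A M : ℕ) : Prop := ∀ H : ℕ, (M : ℝ) / Real.log M ^ A ≤ H → H < M →
  |(pairs M H : ℝ) - expected M H| ≤ ε * expected M H

theorem pairs_eq {M H : ℕ} (h : H < M) : pairs M H = cnt (2 * M) (M - 1 - H) (M - 1) := by
  unfold pairs cnt
  apply card_bij' (fun h _ => M - h) (fun p _ => M - p)
  · intro a ha
    rw [mem_filter, mem_Icc] at ha
    rw [mem_filter, mem_Ioc]
    refine ⟨⟨by omega, by omega⟩, ha.2.1, ?_⟩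
    have : 2 * M - (M - a) = M + a := by omega
    rw [this]
    exact ha.2.2
  · intro a ha
    rw [mem_filter, mem_Ioc] at ha
    rw [mem_filter, mem_Icc]
    refine ⟨⟨by omega, by omega⟩, ?_, ?_⟩
    · have : M - (M - a) = a := by omega
      rw [this]
      exact ha.2.1
    · have : M + (M - a) = 2 * M - a := by omega
      rw [this]
      exact ha.2.2
  · intro a ha
    rw [mem_filter, mem_Icc] at ha
    omega
  · intro a ha
    rw [mem_filter, mem_Ioc] at ha
    omega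

theorem law_of {ε : ℝ} {A M : ℕ} (hM : 4 ≤ M) (h : WinP ε (A + 1) (2 * M)) : Law ε A M := by
  intro H hH hHM
  have hMr : (4 : ℝ) ≤ M := by exact_mod_cast hM
  have hM0 : (0 : ℝ) < M := by linarith
  have hlog1 : 1 ≤ Real.log M := by
    rw [Real.le_log_iff_exp_le hM0]
    linarith [Real.exp_one_lt_d9]
  have hlog2 : Real.log M ≤ Real.log ((2 * M : ℕ) : ℝ) := by
    apply Real.log_le_log hM0
    push_cast
    linarith
  have hlog3 : 2 ≤ Real.log ((2 * M : ℕ) : ℝ) := by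
    rw [Real.le_log_iff_exp_le (by positivity)]
    have e1 : Real.exp 2 = Real.exp 1 * Real.exp 1 := by rw [← Real.exp_add]; norm_num
    have e2 := Real.exp_one_lt_d9
    have e3 := Real.exp_pos 1
    rw [e1]
    push_cast
    nlinarith
  have hwin : ((2 * M : ℕ) : ℝ) / Real.log ((2 * M : ℕ) : ℝ) ^ (A + 1) ≤ H := by
    refine le_trans ?_ hH
    rw [div_le_div_iff₀ (by positivity) (by positivity), pow_succ]
    have e1 : Real.log M ^ A ≤ Real.log ((2 * M : ℕ) : ℝ) ^ A := pow_le_pow_left₀ (by linarith) hlog2 A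
    have e2 : (0 : ℝ) < Real.log M ^ A := by positivity
    calc ((2 * M : ℕ) : ℝ) * Real.log M ^ A = M * (Real.log M ^ A * 2) := by push_cast; ring
      _ ≤ M * (Real.log ((2 * M : ℕ) : ℝ) ^ A * Real.log ((2 * M : ℕ) : ℝ)) := by
          apply mul_le_mul_of_nonneg_left _ hM0.le
          exact mul_le_mul e1 hlog3 (by norm_num) (by positivity)
  have hH0 : 0 < H := by
    have : (0 : ℝ) < H := lt_of_lt_of_le (by positivity) hwin
    exact_mod_cast this
  have e0 : ((M - 1 : ℕ) : ℝ) - ((M - 1 - H : ℕ) : ℝ) = H := by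
    rw [Nat.cast_sub (by omega : H ≤ M - 1)]
    ring
  have h1 := h (M - 1 - H) (M - 1) (by omega) (by omega) (by rw [e0]; exact hwin)
  rw [e0, ← pairs_eq hHM] at h1
  exact h1

end Pool.Agent.V7H86.GM
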