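import Pool.Agent.V7H86.GM.Exc
import Pool.Agent.N868.HW.PP
import Pool.Agent.N189.HW.GP

/-!
# Midpoints of two primes among the numbers `p_r - r`
-/

set_option autoImplicit false

namespace Pool.Agent.V7H86.GM

open Finset Filter Topology
open Pool.Agent.H560R3.GB (sing)
open Pool.Agent.N798.HW (q Qs)

theorem logpow (K : ℕ) {c : ℝ} (hc : 0 < c) :
    ∀ᶠ n : ℕ in atTop, c * (Real.log n) ^ K ≤ n := by
  have hlt := Real.tendsto_log_atTop.comp (tendsto_natCast_atTop_atTop (R := ℝ))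
  have h1 := (Real.isLittleO_pow_log_id_atTop (n := K)).comp_tendsto
    (tendsto_natCast_atTop_atTop (R := ℝ))
  have h2 := h1.bound (show 0 < 1 / c by positivity)
  filter_upwards [h2, hlt.eventually_ge_atTop 1] with n hn hn1
  have hn1' : (1 : ℝ) ≤ Real.log n := hn1
  have h3 : ‖Real.log n ^ K‖ ≤ 1 / c * ‖(n : ℝ)‖ := hn
  rw [Real.norm_of_nonneg (by positivity), Real.norm_of_nonneg (Nat.cast_nonneg n)] at h3
  calc c * (Real.log n) ^ K ≤ c * (1 / c * n) := mul_le_mul_of_nonneg_left h3 hc.le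
    _ = n := by field_simp

theorem logge (c : ℝ) : ∀ᶠ n : ℕ in atTop, c ≤ Real.log n :=
  (Real.tendsto_log_atTop.comp (tendsto_natCast_atTop_atTop (R := ℝ))).eventually_ge_atTop c

open Classical in
/-- few exceptions -/
theorem few (ε : ℝ) (hε : 0 < ε) (A U : ℕ) : ∃ X₀ : ℕ, ∀ X : ℕ, X₀ ≤ X →
    (#((Icc 1 X).filter fun M => ¬ Law ε A M) : ℝ) ≤ X / Real.log X ^ U := by
  obtain ⟨k₀, h⟩ := card_exc ε hε (A + 1) (U + 1)
  rw [← eventually_atTop]
  filter_upwards [logge 5, logge k₀, logpow (U + 1) (c := 3) (by norm_num), eventually_ge_atTop 1] with X h5 hk0 h3 hX1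
  obtain ⟨k, hk⟩ : ∃ k, k = Nat.log 2 (2 * X) + 1 := ⟨_, rfl⟩
  have hX0 : (0 : ℝ) < X := by exact_mod_cast hX1
  have hk1 : 2 * X < 2 ^ k := by
    rw [hk]
    exact Nat.lt_pow_succ_log_self (by norm_num) _
  have hk2 : 2 ^ k ≤ 4 * X := by
    rw [hk, pow_succ]
    have := Nat.pow_log_le_self 2 (show 2 * X ≠ 0 by omega)
    omega
  have hkl : Real.log X ≤ k := by
    have h6 : (X : ℝ) ≤ 2 ^ k := by
      have : X ≤ 2 ^ k := by omega
      exact_mod_cast this
    have h7 := Real.log_le_log hX0 h6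
    rw [Real.log_pow] at h7
    have h8 := Real.log_two_lt_d9
    have h9 : (0 : ℝ) ≤ k := Nat.cast_nonneg k
    nlinarith
  have hkk : k₀ ≤ k := by exact_mod_cast hk0.trans hkl
  have hsub : ((Icc 1 X).filter fun M => ¬ Law ε A M) ⊆
      Icc 1 3 ∪ (((Icc 1 X).filter fun M => ¬ Law ε A M).filter fun M => 4 ≤ M) := by
    intro M hM
    rw [mem_union, mem_filter (s := filter _ _)]
    by_cases h4 : 4 ≤ M
    · exact Or.inr ⟨hM, h4⟩
    · left
      rw [mem_filter, mem_Icc] at hM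
      rw [mem_Icc]
      omega
  have hcard : #(((Icc 1 X).filter fun M => ¬ Law ε A M).filter fun M => 4 ≤ M) ≤ #(exc ε (A + 1) k) := by
    apply card_le_card_of_injOn (fun M => 2 * M)
    · intro M hM
      rw [mem_coe, mem_filter, mem_filter, mem_Icc] at hM
      obtain ⟨⟨⟨h6, h7⟩, h8⟩, h9⟩ := hM
      rw [mem_coe, mem_exc]
      exact ⟨by show 2 * M < 2 ^ k; omega, by show 0 < 2 * M; omega, dvd_mul_right 2 M, fun hw => h8 (law_of h9 hw)⟩
    · intro a _ b _ hab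
      have : 2 * a = 2 * b := hab
      omega
  have h10 : #((Icc 1 X).filter fun M => ¬ Law ε A M) ≤ 3 + #(exc ε (A + 1) k) := by
    refine (card_le_card hsub).trans ((card_union_le _ _).trans ?_)
    simp only [Nat.card_Icc]
    omega
  have h11 : (#((Icc 1 X).filter fun M => ¬ Law ε A M) : ℝ) ≤ 3 + #(exc ε (A + 1) k) := by exact_mod_cast h10
  have hl0 : 0 < Real.log X := by linarith
  have h12 : (#(exc ε (A + 1) k) : ℝ) ≤ 4 * X / Real.log X ^ (U + 1) := by
    refine (h k hkk).trans ?_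
    apply div_le_div₀ (by positivity) (by exact_mod_cast hk2) (by positivity)
    exact pow_le_pow_left₀ hl0.le hkl _
  refine h11.trans ?_
  have h13 : (3 : ℝ) + 4 * X / Real.log X ^ (U + 1) ≤ X / Real.log X ^ U := by
    rw [← sub_nonneg]
    have e1 : (X : ℝ) / Real.log X ^ U - (3 + 4 * X / Real.log X ^ (U + 1)) =
        (X * Real.log X - 4 * X - 3 * Real.log X ^ (U + 1)) / Real.log X ^ (U + 1) := by
      field_simp
      ring
    rw [e1]
    apply div_nonneg _ (by positivity)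
    nlinarith
  linarith

/-- the sequence `p_(m+1) - (m + 1)` -/
noncomputable def u (m : ℕ) : ℕ := Nat.nth Nat.Prime m - (m + 1)

theorem u_lt {m n : ℕ} (h1 : 1 ≤ m) (h2 : m < n) : u m < u n := Pool.Agent.N189.HW.gp.1 m n h1 h2

theorem u_ge {n : ℕ} (h : 1 ≤ n) : n ≤ u n := by
  induction n, h using Nat.le_induction with
  | base => exact Pool.Agent.N189.HW.gp.2.1
  | succ n hn ih =>
    have := u_lt hn (Nat.lt_add_one n)
    omega

theorem mem_Qs {n r : ℕ} (h : r ∈ Qs n) : 2 ≤ r ∧ r ≤ n := by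
  unfold Qs at h
  rw [mem_filter, mem_image] at h
  obtain ⟨⟨k, hk, rfl⟩, hp⟩ := h
  rw [mem_Ico] at hk
  refine ⟨hp.two_le, ?_⟩
  unfold q
  have h1 := Nat.totient_le k
  have h2 := Nat.totient_le (n - k)
  omega

/-- `p_r - r` -/
noncomputable def mid (r : ℕ) : ℕ := Nat.nth Nat.Prime (r - 1) - r

theorem mid_eq {r : ℕ} (h : 2 ≤ r) : mid r = u (r - 1) := by
  unfold mid u
  rw [Nat.sub_add_cancel (by omega)]

open Classical in
/-- all large `n` with many prime values -/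
theorem mainB (ε : ℝ) (hε : 0 < ε) (A C K : ℕ) : ∃ n₀ : ℕ, ∀ n : ℕ, n₀ ≤ n →
    (n : ℝ) / Real.log n ^ C ≤ #(Qs n) →
    (#((Qs n).filter fun r => ¬ Law ε A (mid r)) : ℝ) ≤ #(Qs n) / Real.log n ^ K := by
  obtain ⟨-, -, C₀, n₁, hu3⟩ := Pool.Agent.N189.HW.gp
  obtain ⟨X₀, hX⟩ := few ε hε A (C₀ + C + K)
  rw [← eventually_atTop]
  filter_upwards [logge 1, eventually_ge_atTop 1, eventually_ge_atTop n₁, eventually_ge_atTop X₀] with n h1 hn1 hn2 hn3 hQ
  have hXn : n ≤ u n := u_ge hn1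
  have hn0 : (0 : ℝ) < n := by exact_mod_cast hn1
  have hl0 : 0 < Real.log n := by linarith
  have hcard : #((Qs n).filter fun r => ¬ Law ε A (mid r)) ≤ #((Icc 1 (u n)).filter fun M => ¬ Law ε A M) := by
    apply card_le_card_of_injOn mid
    · intro r hr
      rw [mem_coe, mem_filter] at hr
      obtain ⟨h2, h3⟩ := mem_Qs hr.1
      rw [mem_coe, mem_filter, mem_Icc]
      refine ⟨?_, hr.2⟩
      rw [mid_eq h2]
      have h4 := u_ge (n := r - 1) (by omega)
      have h5 := u_lt (m := r - 1) (n := n) (by omega) (by omega)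
      omega
    · intro r hr r' hr' he
      rw [mem_coe, mem_filter] at hr hr'
      have h2 := (mem_Qs hr.1).1
      have h2' := (mem_Qs hr'.1).1
      rw [mid_eq h2, mid_eq h2'] at he
      rcases lt_trichotomy r r' with h | h | h
      · have := u_lt (m := r - 1) (n := r' - 1) (by omega) (by omega)
        omega
      · exact h
      · have := u_lt (m := r' - 1) (n := r - 1) (by omega) (by omega)
        omega
  have h2 : (#((Qs n).filter fun r => ¬ Law ε A (mid r)) : ℝ) ≤ u n / Real.log (u n) ^ (C₀ + C + K) :=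
    (Nat.cast_le.2 hcard).trans (hX (u n) (hn3.trans hXn))
  have h3 : (u n : ℝ) ≤ n * Real.log n ^ C₀ := hu3 n hn2
  have h4 : Real.log n ≤ Real.log (u n) := Real.log_le_log hn0 (by exact_mod_cast hXn)
  calc (#((Qs n).filter fun r => ¬ Law ε A (mid r)) : ℝ) ≤ u n / Real.log (u n) ^ (C₀ + C + K) := h2
    _ ≤ n * Real.log n ^ C₀ / Real.log n ^ (C₀ + C + K) :=
        div_le_div₀ (by positivity) h3 (by positivity) (pow_le_pow_left₀ hl0.le h4 _)
    _ = n / Real.log n ^ C / Real.log n ^ K := by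
        rw [pow_add, pow_add]
        field_simp
    _ ≤ #(Qs n) / Real.log n ^ K := div_le_div_of_nonneg_right hQ (by positivity)

/-- a small `h` -/
theorem exists_h (A : ℕ) : ∃ M₁ : ℕ, ∀ M : ℕ, M₁ ≤ M → Law (1 / 2) (A + 2) M →
    ∃ h : ℕ, 1 ≤ h ∧ (h : ℝ) ≤ M / Real.log M ^ A ∧ (M - h).Prime ∧ (M + h).Prime := by
  rw [← eventually_atTop]
  filter_upwards [logge 2, logpow (A + 2) (c := 1) one_pos, eventually_ge_atTop 1] with M h2 h3 hM1 hL
  have hM0 : (0 : ℝ) < M := by exact_mod_cast hM1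
  have hl0 : 0 < Real.log M := by linarith
  obtain ⟨H, hH⟩ : ∃ H, H = ⌊(M : ℝ) / Real.log M ^ (A + 1)⌋₊ := ⟨_, rfl⟩
  have hH1 : (H : ℝ) ≤ M / Real.log M ^ (A + 1) := by
    rw [hH]
    exact Nat.floor_le (by positivity)
  have hH2 : (M : ℝ) / Real.log M ^ (A + 1) - 1 < H := by
    rw [hH]
    have := Nat.lt_floor_add_one ((M : ℝ) / Real.log M ^ (A + 1))
    linarith
  have h4 : (1 : ℝ) ≤ M / Real.log M ^ (A + 2) := by
    rw [le_div_iff₀ (by positivity)]
    exact h3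
  have e1 : (M : ℝ) / Real.log M ^ (A + 1) = M / Real.log M ^ (A + 2) * Real.log M := by
    rw [pow_succ (Real.log M) (A + 1)]
    field_simp
  have h5 : (M : ℝ) / Real.log M ^ (A + 2) ≤ H := by
    rw [e1] at hH2
    nlinarith
  have h6 : (M : ℝ) / Real.log M ^ (A + 1) ≤ M / Real.log M ^ A := by
    apply div_le_div_of_nonneg_left hM0.le (by positivity)
    exact pow_le_pow_right₀ (by linarith) (by omega)
  have h7 : H < M := by
    have h8 : (M : ℝ) / Real.log M ^ (A + 1) < M := by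
      rw [div_lt_iff₀ (by positivity)]
      have h9 : (1 : ℝ) < Real.log M ^ (A + 1) := one_lt_pow₀ (by linarith) (by omega)
      nlinarith
    have : (H : ℝ) < M := lt_of_le_of_lt hH1 h8
    exact_mod_cast this
  have h8 := hL H h5 h7
  have hH0 : (0 : ℝ) < H := by linarith
  have hlog : 0 < Real.log ((2 * M : ℕ) : ℝ) := by
    apply Real.log_pos
    push_cast
    have : (1 : ℝ) ≤ M := by exact_mod_cast hM1
    linarith
  have hexp : 0 < expected M H := by
    unfold expected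
    have h9 : (1 : ℝ) ≤ sing (2 * M) := Pool.Agent.W93.GB.one_le_sing (2 * M)
    positivity
  have h10 : (0 : ℝ) < pairs M H := by
    have := (abs_le.1 h8).1
    linarith
  have h11 : 0 < pairs M H := by exact_mod_cast h10
  unfold pairs at h11
  obtain ⟨h, hh⟩ := card_pos.1 h11
  rw [mem_filter, mem_Icc] at hh
  refine ⟨h, hh.1.1, ?_, hh.2.1, hh.2.2⟩
  have h12 : (h : ℝ) ≤ H := by exact_mod_cast hh.1.2
  linarith

open Classical in
/-- positive proportion -/
theorem mainA : ∃ c : ℝ, 0 < c ∧ ∀ A : ℕ, ∀ᶠ x : ℕ in atTop,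
    c * x ≤ (#((Icc 32 x).filter fun n : ℕ => (n : ℝ) / Real.log n ^ 15 ≤
      (#((Qs n).filter fun r => ∃ h : ℕ, 1 ≤ h ∧ (h : ℝ) ≤ mid r / Real.log (mid r) ^ A ∧
        (mid r - h).Prime ∧ (mid r + h).Prime) : ℝ)) : ℝ) := by
  obtain ⟨c, hc, hpp⟩ := Pool.Agent.N868.HW.pp
  refine ⟨c / 2, by positivity, fun A => ?_⟩
  obtain ⟨M₁, hM₁⟩ := exists_h A
  obtain ⟨n₂, hn₂⟩ := mainB (1 / 2) (by norm_num) (A + 2) 14 1
  obtain ⟨n₀, hn₀⟩ : ∃ n₀ : ℕ, ∀ n : ℕ, n₀ ≤ n → (n : ℝ) / Real.log n ^ 14 ≤ #(Qs n) →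
      (n : ℝ) / Real.log n ^ 15 ≤
      (#((Qs n).filter fun r => ∃ h : ℕ, 1 ≤ h ∧ (h : ℝ) ≤ mid r / Real.log (mid r) ^ A ∧
        (mid r - h).Prime ∧ (mid r + h).Prime) : ℝ) := by
    rw [← eventually_atTop]
    filter_upwards [eventually_ge_atTop n₂, logge 4, logpow 14 (c := 4 * ((M₁ : ℝ) + 1)) (by positivity),
      eventually_ge_atTop 1] with n h1 h4 h14 hn1 hQ
    have hl0 : 0 < Real.log n := by linarith
    have hb := hn₂ n h1 hQ
    rw [pow_one] at hb
    have hsub : (Qs n).filter (fun r => ¬ ∃ h : ℕ, 1 ≤ h ∧ (h : ℝ) ≤ mid r / Real.log (mid r) ^ A ∧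
        (mid r - h).Prime ∧ (mid r + h).Prime) ⊆
        ((Qs n).filter fun r => ¬ Law (1 / 2) (A + 2) (mid r)) ∪ range (M₁ + 1) := by
      intro r hr
      rw [mem_filter] at hr
      rw [mem_union, mem_filter, mem_range]
      by_cases hL : Law (1 / 2) (A + 2) (mid r)
      · right
        by_contra hcon
        apply hr.2
        refine hM₁ (mid r) ?_ hL
        have h2 := (mem_Qs hr.1).1
        have h3 := u_ge (n := r - 1) (by omega)
        rw [mid_eq h2]
        omega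
      · exact Or.inl ⟨hr.1, hL⟩
    have hle : (#((Qs n).filter (fun r => ¬ ∃ h : ℕ, 1 ≤ h ∧ (h : ℝ) ≤ mid r / Real.log (mid r) ^ A ∧
        (mid r - h).Prime ∧ (mid r + h).Prime)) : ℝ) ≤ #(Qs n) / Real.log n + (M₁ + 1) := by
      have h5 := (card_le_card hsub).trans (card_union_le _ _)
      rw [card_range] at h5
      have h6 : (#((Qs n).filter (fun r => ¬ ∃ h : ℕ, 1 ≤ h ∧ (h : ℝ) ≤ mid r / Real.log (mid r) ^ A ∧
        (mid r - h).Prime ∧ (mid r + h).Prime)) : ℝ) ≤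
          #((Qs n).filter fun r => ¬ Law (1 / 2) (A + 2) (mid r)) + (M₁ + 1 : ℕ) := by exact_mod_cast h5
      push_cast at h6
      linarith
    have hsum := card_filter_add_card_filter_not (s := Qs n) (fun r => ∃ h : ℕ, 1 ≤ h ∧
        (h : ℝ) ≤ mid r / Real.log (mid r) ^ A ∧ (mid r - h).Prime ∧ (mid r + h).Prime)
    have hsum' : (#((Qs n).filter fun r => ∃ h : ℕ, 1 ≤ h ∧
        (h : ℝ) ≤ mid r / Real.log (mid r) ^ A ∧ (mid r - h).Prime ∧ (mid r + h).Prime) : ℝ) +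
        #((Qs n).filter (fun r => ¬ ∃ h : ℕ, 1 ≤ h ∧
        (h : ℝ) ≤ mid r / Real.log (mid r) ^ A ∧ (mid r - h).Prime ∧ (mid r + h).Prime)) = #(Qs n) := by
      exact_mod_cast hsum
    have h7 : (#(Qs n) : ℝ) / Real.log n ≤ #(Qs n) / 4 :=
      div_le_div_of_nonneg_left (Nat.cast_nonneg _) (by norm_num) h4
    have h8 : ((M₁ : ℝ) + 1) ≤ n / Real.log n ^ 14 / 4 := by
      rw [div_div, le_div_iff₀ (by positivity)]
      linarith
    have h9 : (n : ℝ) / Real.log n ^ 15 ≤ n / Real.log n ^ 14 / 4 := by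
      rw [div_div]
      apply div_le_div_of_nonneg_left (Nat.cast_nonneg n) (by positivity)
      rw [pow_succ]
      exact mul_le_mul_of_nonneg_left h4 (by positivity)
    have h10 : (0 : ℝ) ≤ n / Real.log n ^ 14 := by positivity
    linarith
  filter_upwards [hpp, eventually_ge_atTop ⌈2 * (n₀ : ℝ) / c⌉₊] with x hx hx2
  have h1 : ((Icc 32 x).filter fun n : ℕ => (n : ℝ) / Real.log n ^ 14 ≤ (#(Qs n) : ℝ)) ⊆
      range n₀ ∪ ((Icc 32 x).filter fun n : ℕ => (n : ℝ) / Real.log n ^ 15 ≤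
      (#((Qs n).filter fun r => ∃ h : ℕ, 1 ≤ h ∧ (h : ℝ) ≤ mid r / Real.log (mid r) ^ A ∧
        (mid r - h).Prime ∧ (mid r + h).Prime) : ℝ)) := by
    intro n hn
    rw [mem_filter] at hn
    rw [mem_union, mem_range, mem_filter]
    by_cases h : n < n₀
    · exact Or.inl h
    · exact Or.inr ⟨hn.1, hn₀ n (not_lt.1 h) hn.2⟩
  have h2 := (card_le_card h1).trans (card_union_le _ _)
  rw [card_range] at h2
  have h3 : (#((Icc 32 x).filter fun n : ℕ => (n : ℝ) / Real.log n ^ 14 ≤ (#(Qs n) : ℝ)) : ℝ) ≤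
      n₀ + (#((Icc 32 x).filter fun n : ℕ => (n : ℝ) / Real.log n ^ 15 ≤
      (#((Qs n).filter fun r => ∃ h : ℕ, 1 ≤ h ∧ (h : ℝ) ≤ mid r / Real.log (mid r) ^ A ∧
        (mid r - h).Prime ∧ (mid r + h).Prime) : ℝ)) : ℝ) := by exact_mod_cast h2
  have h4 : 2 * (n₀ : ℝ) / c ≤ x := Nat.ceil_le.1 hx2
  rw [div_le_iff₀ hc] at h4
  linarith

end Pool.Agent.V7H86.GM
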